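import Pool.Agent.Helper60.QL.Defs
import Pool.Agent.Helper92.GC.Q3

/-!
# QL-S2, first part: the twentieth moment in a cone

`cone_pairs`: pairs with `|dd| ≤ D` in the cone; `mom_cone_of`: the theorem `mom_cone` from `iter`, `m6_frames`, `m20_m6`
(which are hypotheses here).
-/

open MeasureTheory Real Set Filter Topology

set_option autoImplicit false

namespace Pool.Agent.Helper60.QL

open Pool.Agent.Helper22.AE
open Pool.Agent.Helper92.GC (dt tp Tq uu tt arc dd m6 reg reg_pairs)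
open Pool.Agent.Helper60.LT (Fr Tf xf yf df vf fr)
open Pool.Agent.Helper75.TW (m20)

theorem cone_reg {H : ℝ} (hH : 1 ≤ H) {S : Finset (ℤ × ℤ)} (hS : Cone H 2 S) : S ⊆ reg 0 H := by
  classical
  intro k hk
  obtain ⟨h1, h2, h3⟩ := hS k hk
  have hk1 : (0 : ℝ) < k.1 := by linarith
  have hb : 40 * H ≤ ((⌈40 * H⌉₊ : ℕ) : ℝ) := Nat.le_ceil _
  have hu : uu 0 k = k.1 := by unfold uu; ring
  unfold reg
  rw [Finset.mem_filter, hu]
  refine ⟨?_, by linarith, by linarith, by linarith⟩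
  unfold box
  rw [Finset.mem_product, Finset.mem_Icc, Finset.mem_Icc]
  have h4 := abs_le.1 h3
  refine ⟨⟨?_, ?_⟩, ?_, ?_⟩
  · have : (-((⌈40 * H⌉₊ : ℕ) : ℤ) : ℝ) ≤ (k.1 : ℝ) := by push_cast; linarith
    exact_mod_cast this
  · have : (k.1 : ℝ) ≤ (((⌈40 * H⌉₊ : ℕ) : ℤ) : ℝ) := by push_cast; linarith
    exact_mod_cast this
  · have : (-((⌈40 * H⌉₊ : ℕ) : ℤ) : ℝ) ≤ (k.2 : ℝ) := by push_cast; linarith
    exact_mod_cast this
  · have : (k.2 : ℝ) ≤ (((⌈40 * H⌉₊ : ℕ) : ℤ) : ℝ) := by push_cast; linarith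
    exact_mod_cast this

open Classical in
/-- pairs of the cone with a small determinant -/
theorem cone_pairs : ∃ C : ℝ, 1 ≤ C ∧ ∀ (H D : ℝ) (S : Finset (ℤ × ℤ)), 1 ≤ H → 0 ≤ D → Cone H 2 S →
    (((S ×ˢ S).filter (fun q => |((dd q.1 q.2 : ℤ) : ℝ)| ≤ D)).card : ℝ) ≤ C * H ^ 2 * (1 + log H) * (1 + D) := by
  obtain ⟨C, hC, hp⟩ := reg_pairs
  refine ⟨max C 1, le_max_right _ _, fun H D S hH hD hS => ?_⟩
  have h1 := hp 0 H D (by norm_num) hH hD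
  have hsub := cone_reg hH hS
  have h2 : ((S ×ˢ S).filter (fun q => |((dd q.1 q.2 : ℤ) : ℝ)| ≤ D)).card ≤
      ((reg 0 H ×ˢ reg 0 H).filter (fun q => |((dd q.1 q.2 : ℤ) : ℝ)| ≤ D)).card :=
    Finset.card_le_card (Finset.filter_subset_filter _ (Finset.product_subset_product hsub hsub))
  have h3 : 0 ≤ log H := Real.log_nonneg hH
  calc (((S ×ˢ S).filter (fun q => |((dd q.1 q.2 : ℤ) : ℝ)| ≤ D)).card : ℝ) ≤
        (((reg 0 H ×ˢ reg 0 H).filter (fun q => |((dd q.1 q.2 : ℤ) : ℝ)| ≤ D)).card : ℝ) := by exact_mod_cast h2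
    _ ≤ C * H ^ 2 * (1 + log H) * (1 + D) := h1
    _ ≤ max C 1 * H ^ 2 * (1 + log H) * (1 + D) := by
        have := le_max_left C 1
        gcongr

/-- two members of one sector -/
theorem arc_dd {H : ℝ} {N j : ℕ} (hH : 1 ≤ H) (hN : 1 ≤ N) {S : Finset (ℤ × ℤ)} (hS : Cone H 2 S) {k k' : ℤ × ℤ}
    (hk : k ∈ arc 0 S N j) (hk' : k' ∈ arc 0 S N j) : |((dd k k' : ℤ) : ℝ)| ≤ 48 * H ^ 2 / N := by
  classical
  unfold arc at hk hk'
  rw [Finset.mem_filter] at hk hk'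
  obtain ⟨h1, h2, h3⟩ := hS _ hk.1
  obtain ⟨h1', h2', h3'⟩ := hS _ hk'.1
  have huu : ∀ q : ℤ × ℤ, uu 0 q = q.1 := fun q => by unfold uu; ring
  have hu : 0 < (k.1 : ℝ) := by linarith
  have hu' : 0 < (k'.1 : ℝ) := by linarith
  have hN0 : (0 : ℝ) < N := by exact_mod_cast hN
  have ht : |tt 0 k| ≤ 2 := by
    unfold tt
    rw [huu, abs_div, abs_of_pos hu, div_le_iff₀ hu]
    exact h3
  have ht' : |tt 0 k'| ≤ 2 := by
    unfold tt
    rw [huu, abs_div, abs_of_pos hu', div_le_iff₀ hu']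
    exact h3'
  have a1 := (abs_le.1 ht).1
  have a2 := (abs_le.1 ht').1
  have f1 := (Nat.floor_eq_iff (by
    have : 0 ≤ (tt 0 k + 6) / 12 := by linarith
    positivity)).1 hk.2
  have f2 := (Nat.floor_eq_iff (by
    have : 0 ≤ (tt 0 k' + 6) / 12 := by linarith
    positivity)).1 hk'.2
  have hd : |tt 0 k' - tt 0 k| ≤ 12 / N := by
    have h7 : |tt 0 k' - tt 0 k| * N = |(tt 0 k' - tt 0 k) * N| := by rw [abs_mul, abs_of_pos hN0]
    rw [le_div_iff₀ hN0, h7, abs_le]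
    constructor <;> linarith [f1.1, f1.2, f2.1, f2.2]
  have e1 : (k.2 : ℝ) = tt 0 k * k.1 := by
    unfold tt
    rw [huu, div_mul_cancel₀ _ hu.ne']
  have e1' : (k'.2 : ℝ) = tt 0 k' * k'.1 := by
    unfold tt
    rw [huu, div_mul_cancel₀ _ hu'.ne']
  have e : ((dd k k' : ℤ) : ℝ) = k.1 * k'.1 * (tt 0 k' - tt 0 k) := by
    unfold dd
    push_cast
    rw [e1, e1']
    ring
  rw [e, abs_mul, abs_mul, abs_of_pos hu, abs_of_pos hu']
  calc (k.1 : ℝ) * k'.1 * |tt 0 k' - tt 0 k| ≤ (2 * H) * (2 * H) * (12 / N) := by gcongr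
    _ = 48 * H ^ 2 / N := by ring

/-- a sum over disjoint sectors of numbers of pairs -/
theorem sum_arc_pairs (S : Finset (ℤ × ℤ)) (N : ℕ) (Q : (ℤ × ℤ) × (ℤ × ℤ) → Prop) [DecidablePred Q] :
    ∑ r ∈ Finset.range N, (((arc 0 S N r ×ˢ arc 0 S N r).filter Q).card : ℝ) ≤ (((S ×ˢ S).filter Q).card : ℝ) := by
  classical
  have h4 : ((Finset.range N).biUnion fun j => (arc 0 S N j ×ˢ arc 0 S N j).filter Q).card =
      ∑ j ∈ Finset.range N, ((arc 0 S N j ×ˢ arc 0 S N j).filter Q).card := by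
    refine Finset.card_biUnion fun i _ j _ hij => ?_
    refine Finset.disjoint_left.2 ?_
    rintro ⟨k, k'⟩ h5 h6
    have h7 := (Finset.mem_product.1 (Finset.mem_filter.1 h5).1).1
    have h8 := (Finset.mem_product.1 (Finset.mem_filter.1 h6).1).1
    unfold arc at h7 h8
    rw [Finset.mem_filter] at h7 h8
    exact hij (h7.2.symm.trans h8.2)
  have h5 : ((Finset.range N).biUnion fun j => (arc 0 S N j ×ˢ arc 0 S N j).filter Q) ⊆ (S ×ˢ S).filter Q := by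
    intro q hq
    rw [Finset.mem_biUnion] at hq
    obtain ⟨j, -, hj⟩ := hq
    rw [Finset.mem_filter, Finset.mem_product] at hj ⊢
    unfold arc at hj
    rw [Finset.mem_filter, Finset.mem_filter] at hj
    exact ⟨⟨hj.1.1.1, hj.1.2.1⟩, hj.2⟩
  have h6 := Finset.card_le_card h5
  rw [h4] at h6
  exact_mod_cast h6

/-- Hölder with the exponents `10/7, 10, 5` -/
theorem holder3 {ι : Type*} (s : Finset ι) (a b c : ι → ℝ) (ha : ∀ i ∈ s, 0 ≤ a i) (hb : ∀ i ∈ s, 0 ≤ b i)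
    (hc : ∀ i ∈ s, 0 ≤ c i) {A B C : ℝ} (hA : 0 < A) (hB : 0 < B) (hC : 0 < C) (h1 : ∑ i ∈ s, a i ≤ A)
    (h2 : ∑ i ∈ s, b i ≤ B) (h3 : ∑ i ∈ s, c i ≤ C) :
    ∑ i ∈ s, a i ^ (7 / 10 : ℝ) * b i ^ (1 / 10 : ℝ) * c i ^ (1 / 5 : ℝ) ≤ A ^ (7 / 10 : ℝ) * B ^ (1 / 10 : ℝ) * C ^ (1 / 5 : ℝ) := by
  have hP : 0 < A ^ (7 / 10 : ℝ) * B ^ (1 / 10 : ℝ) * C ^ (1 / 5 : ℝ) := by positivity
  have key : ∀ i ∈ s, a i ^ (7 / 10 : ℝ) * b i ^ (1 / 10 : ℝ) * c i ^ (1 / 5 : ℝ) ≤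
      A ^ (7 / 10 : ℝ) * B ^ (1 / 10 : ℝ) * C ^ (1 / 5 : ℝ) * (7 / 10 * (a i / A) + 1 / 10 * (b i / B) + 1 / 5 * (c i / C)) := by
    intro i hi
    have h4 := Real.geom_mean_le_arith_mean3_weighted (w₁ := 7 / 10) (w₂ := 1 / 10) (w₃ := 1 / 5) (by norm_num) (by norm_num)
      (by norm_num) (div_nonneg (ha i hi) hA.le) (div_nonneg (hb i hi) hB.le) (div_nonneg (hc i hi) hC.le) (by norm_num)
    rw [Real.div_rpow (ha i hi) hA.le, Real.div_rpow (hb i hi) hB.le, Real.div_rpow (hc i hi) hC.le] at h4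
    calc a i ^ (7 / 10 : ℝ) * b i ^ (1 / 10 : ℝ) * c i ^ (1 / 5 : ℝ) =
          A ^ (7 / 10 : ℝ) * B ^ (1 / 10 : ℝ) * C ^ (1 / 5 : ℝ) * (a i ^ (7 / 10 : ℝ) / A ^ (7 / 10 : ℝ) *
            (b i ^ (1 / 10 : ℝ) / B ^ (1 / 10 : ℝ)) * (c i ^ (1 / 5 : ℝ) / C ^ (1 / 5 : ℝ))) := by
          have e1 : A ^ (7 / 10 : ℝ) ≠ 0 := by positivity
          have e2 : B ^ (1 / 10 : ℝ) ≠ 0 := by positivity
          have e3 : C ^ (1 / 5 : ℝ) ≠ 0 := by positivity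
          field_simp
      _ ≤ _ := mul_le_mul_of_nonneg_left h4 hP.le
  refine (Finset.sum_le_sum key).trans ?_
  rw [← Finset.mul_sum, Finset.sum_add_distrib, Finset.sum_add_distrib, ← Finset.mul_sum, ← Finset.mul_sum,
    ← Finset.mul_sum, ← Finset.sum_div, ← Finset.sum_div, ← Finset.sum_div]
  have h5 : (∑ i ∈ s, a i) / A ≤ 1 := (div_le_one hA).2 h1
  have h6 : (∑ i ∈ s, b i) / B ≤ 1 := (div_le_one hB).2 h2
  have h7 : (∑ i ∈ s, c i) / C ≤ 1 := (div_le_one hC).2 h3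
  have h8 : 7 / 10 * ((∑ i ∈ s, a i) / A) + 1 / 10 * ((∑ i ∈ s, b i) / B) + 1 / 5 * ((∑ i ∈ s, c i) / C) ≤ 1 := by
    linarith
  calc _ ≤ A ^ (7 / 10 : ℝ) * B ^ (1 / 10 : ℝ) * C ^ (1 / 5 : ℝ) * 1 := mul_le_mul_of_nonneg_left h8 hP.le
    _ = _ := mul_one _

end Pool.Agent.Helper60.QL
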