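import Pool.Agent.Helper49.QL.S2c
import Pool.Agent.Helper40.QL.D4

/-!
# QL-S2, second part: `mom_cone` from `iter`, `m6_frames`, `m20_m6`
-/

open MeasureTheory Real Set Filter Topology

set_option autoImplicit false

namespace Pool.Agent.Helper60.QL

open Pool.Agent.Helper22.AE
open Pool.Agent.Helper92.GC (dt tp Tq uu tt arc dd m6 reg reg_pairs)
open Pool.Agent.Helper60.LT (Fr Tf xf yf df vf fr)
open Pool.Agent.Helper75.TW (m20)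

/-- one sector: the factor of the sixth moment theorem -/
theorem one_sector {K n P : ℝ} (hK : 0 ≤ K) (hn : 0 ≤ n) (hP : 0 ≤ P) :
    (n ^ 14 * (K * n * P ^ 2)) ^ (1 / 10 : ℝ) =
      K ^ (1 / 10 : ℝ) * ((n ^ 2) ^ (7 / 10 : ℝ) * n ^ (1 / 10 : ℝ) * P ^ (1 / 5 : ℝ)) := by
  have e1 : n ^ 14 * (K * n * P ^ 2) = K * (n ^ 15 * P ^ 2) := by ring
  rw [e1, Real.mul_rpow hK (by positivity), Real.mul_rpow (by positivity) (by positivity)]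
  have e2 : (n ^ 15) ^ (1 / 10 : ℝ) = (n ^ 2) ^ (7 / 10 : ℝ) * n ^ (1 / 10 : ℝ) := by
    rw [← Real.rpow_natCast n 15, ← Real.rpow_natCast n 2, ← Real.rpow_mul hn, ← Real.rpow_mul hn,
      ← Real.rpow_add' hn (by norm_num)]
    norm_num
  have e3 : (P ^ 2) ^ (1 / 10 : ℝ) = P ^ (1 / 5 : ℝ) := by
    rw [← Real.rpow_natCast P 2, ← Real.rpow_mul hP]
    norm_num
  rw [e2, e3]

/-- the sum over the sectors -/
theorem sector_sum {C₁ : ℝ} (hC₁ : 1 ≤ C₁) : ∃ C : ℝ, 1 ≤ C ∧ ∀ (X H : ℝ) (N : ℕ) (S : Finset (ℤ × ℤ)), 1 ≤ X → 1 ≤ H → H ^ 3 ≤ X →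
    1 ≤ N → Cone H 2 S → ∀ P : ℕ → ℝ,
    (∀ r, 0 ≤ P r) → (∀ r, ∃ D : ℝ, D ≤ C₁ * (1 + H ^ 2 / √(H * X)) ∧ 0 ≤ D ∧
      P r ≤ (((arc 0 S N r ×ˢ arc 0 S N r).filter (fun z => |((dd z.1 z.2 : ℤ) : ℝ)| ≤ D)).card : ℝ)) →
    ∑ r ∈ Finset.range N, (((arc 0 S N r).card : ℝ) ^ 2) ^ (7 / 10 : ℝ) * ((arc 0 S N r).card : ℝ) ^ (1 / 10 : ℝ) *
      P r ^ (1 / 5 : ℝ) ≤ C * (H ^ 2 * (1 + log H)) * (1 + H ^ 2 / N) ^ (7 / 10 : ℝ) := by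
  obtain ⟨C₂, hC₂, hpair⟩ := cone_pairs
  refine ⟨C₂ * 48 * (1 + 2 * C₁), ?_, ?_⟩
  · have : 1 ≤ C₂ * 48 := by linarith
    nlinarith
  intro X H N S hX hH hHX hN hS P hP0 hP
  classical
  have hlog : 0 ≤ log H := Real.log_nonneg hH
  have hN0 : (0 : ℝ) < N := by exact_mod_cast hN
  have hH0 : (0 : ℝ) < H := by linarith
  set Y : ℝ := C₂ * (H ^ 2 * (1 + log H)) with hY
  have hY0 : 0 < Y := by positivity
  clear_value Y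
  have hD₂ : H ^ 2 / √(H * X) ≤ 1 := by
    rw [div_le_one (by positivity)]
    apply Real.le_sqrt_of_sq_le
    calc (H ^ 2) ^ 2 = H * H ^ 3 := by ring
      _ ≤ H * X := mul_le_mul_of_nonneg_left hHX hH0.le
  -- squares of the cards
  have s1 : ∑ r ∈ Finset.range N, ((arc 0 S N r).card : ℝ) ^ 2 ≤ Y * (48 * (1 + H ^ 2 / N)) := by
    have h1 := sum_arc_pairs S N (fun z => |((dd z.1 z.2 : ℤ) : ℝ)| ≤ 48 * H ^ 2 / N)
    have h2 := hpair H (48 * H ^ 2 / N) S hH (by positivity) hS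
    have h3 : ∀ r ∈ Finset.range N, ((arc 0 S N r).card : ℝ) ^ 2 =
        (((arc 0 S N r ×ˢ arc 0 S N r).filter (fun z => |((dd z.1 z.2 : ℤ) : ℝ)| ≤ 48 * H ^ 2 / N)).card : ℝ) := by
      intro r _
      rw [Finset.filter_true_of_mem, Finset.card_product]
      · push_cast; ring
      · intro z hz
        rw [Finset.mem_product] at hz
        exact arc_dd hH hN hS hz.1 hz.2
    rw [Finset.sum_congr rfl h3]
    refine h1.trans (le_trans (by convert h2 using 2) ?_)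
    have h4 : 1 + 48 * H ^ 2 / N ≤ 48 * (1 + H ^ 2 / N) := by
      have : 48 * H ^ 2 / N = 48 * (H ^ 2 / N) := by ring
      rw [this]; linarith
    calc C₂ * H ^ 2 * (1 + log H) * (1 + 48 * H ^ 2 / N) = Y * (1 + 48 * H ^ 2 / N) := by rw [hY]; ring
      _ ≤ Y * (48 * (1 + H ^ 2 / N)) := mul_le_mul_of_nonneg_left h4 hY0.le
  have hcard : ∑ r ∈ Finset.range N, ((arc 0 S N r).card : ℝ) ≤ Y := by
    have h1 := sum_arc_pairs S N (fun z => z.1 = z.2)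
    have h2 := hpair H 0 S hH le_rfl hS
    have h3 : ∀ r ∈ Finset.range N, ((arc 0 S N r).card : ℝ) =
        (((arc 0 S N r ×ˢ arc 0 S N r).filter (fun z => z.1 = z.2)).card : ℝ) := by
      intro r _
      congr 1
      symm
      apply Finset.card_bij (fun z _ => z.1)
      · intro z hz
        exact (Finset.mem_product.1 (Finset.mem_filter.1 hz).1).1
      · intro z hz w hw h
        rw [Finset.mem_filter] at hz hw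
        exact Prod.ext h (by rw [← hz.2, ← hw.2, h])
      · intro k hk
        exact ⟨(k, k), Finset.mem_filter.2 ⟨Finset.mem_product.2 ⟨hk, hk⟩, rfl⟩, rfl⟩
    rw [Finset.sum_congr rfl h3]
    refine h1.trans ?_
    have h4 : ((S ×ˢ S).filter (fun z => z.1 = z.2)).card ≤
        ((S ×ˢ S).filter (fun z => |((dd z.1 z.2 : ℤ) : ℝ)| ≤ 0)).card := by
      apply Finset.card_le_card
      intro z hz
      rw [Finset.mem_filter] at hz ⊢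
      refine ⟨hz.1, ?_⟩
      rw [hz.2]
      have : dd z.2 z.2 = 0 := by unfold dd; ring
      rw [this]; simp
    have h5 : (((S ×ˢ S).filter (fun z => z.1 = z.2)).card : ℝ) ≤
        (((S ×ˢ S).filter (fun z => |((dd z.1 z.2 : ℤ) : ℝ)| ≤ 0)).card : ℝ) := by exact_mod_cast h4
    refine h5.trans (le_trans (by convert h2 using 2) ?_)
    rw [hY]; apply le_of_eq; ring
  have hPs : ∑ r ∈ Finset.range N, P r ≤ Y * (1 + 2 * C₁) := by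
    have h1 := sum_arc_pairs S N (fun z => |((dd z.1 z.2 : ℤ) : ℝ)| ≤ 2 * C₁)
    have h2 := hpair H (2 * C₁) S hH (by linarith) hS
    have h3 : ∀ r ∈ Finset.range N, P r ≤
        (((arc 0 S N r ×ˢ arc 0 S N r).filter (fun z => |((dd z.1 z.2 : ℤ) : ℝ)| ≤ 2 * C₁)).card : ℝ) := by
      intro r _
      obtain ⟨D, hD1, hD0, hD⟩ := hP r
      refine hD.trans ?_
      have h4 : D ≤ 2 * C₁ := hD1.trans (by nlinarith)
      have h5 : ((arc 0 S N r ×ˢ arc 0 S N r).filter (fun z => |((dd z.1 z.2 : ℤ) : ℝ)| ≤ D)).card ≤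
          ((arc 0 S N r ×ˢ arc 0 S N r).filter (fun z => |((dd z.1 z.2 : ℤ) : ℝ)| ≤ 2 * C₁)).card := by
        apply Finset.card_le_card
        intro z hz
        rw [Finset.mem_filter] at hz ⊢
        exact ⟨hz.1, hz.2.trans h4⟩
      exact_mod_cast h5
    refine (Finset.sum_le_sum h3).trans (h1.trans (le_trans (by convert h2 using 2) ?_))
    rw [hY]; apply le_of_eq; ring
  have hA : 0 < Y * (48 * (1 + H ^ 2 / N)) := by positivity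
  have hB : 0 < Y := hY0
  have hCC : 0 < Y * (1 + 2 * C₁) := by positivity
  have h10 := holder3 (Finset.range N) (fun r => ((arc 0 S N r).card : ℝ) ^ 2) (fun r => ((arc 0 S N r).card : ℝ)) P
    (fun r _ => by positivity) (fun r _ => by positivity) (fun r _ => hP0 r) hA hB hCC s1 hcard hPs
  refine h10.trans ?_
  have e1 : (Y * (48 * (1 + H ^ 2 / N))) ^ (7 / 10 : ℝ) ≤ Y ^ (7 / 10 : ℝ) * (48 * (1 + H ^ 2 / N) ^ (7 / 10 : ℝ)) := by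
    rw [Real.mul_rpow hY0.le (by positivity), Real.mul_rpow (by norm_num) (by positivity)]
    have : (48 : ℝ) ^ (7 / 10 : ℝ) ≤ 48 := by
      calc (48 : ℝ) ^ (7 / 10 : ℝ) ≤ 48 ^ (1 : ℝ) := Real.rpow_le_rpow_of_exponent_le (by norm_num) (by norm_num)
        _ = 48 := Real.rpow_one _
    gcongr
  have e2 : (Y * (1 + 2 * C₁)) ^ (1 / 5 : ℝ) ≤ Y ^ (1 / 5 : ℝ) * (1 + 2 * C₁) := by
    rw [Real.mul_rpow hY0.le (by positivity)]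
    have : (1 + 2 * C₁) ^ (1 / 5 : ℝ) ≤ 1 + 2 * C₁ := by
      calc (1 + 2 * C₁) ^ (1 / 5 : ℝ) ≤ (1 + 2 * C₁) ^ (1 : ℝ) := Real.rpow_le_rpow_of_exponent_le (by linarith) (by norm_num)
        _ = 1 + 2 * C₁ := Real.rpow_one _
    gcongr
  have e3 : Y ^ (7 / 10 : ℝ) * Y ^ (1 / 10 : ℝ) * Y ^ (1 / 5 : ℝ) = Y := by
    rw [← Real.rpow_add hY0, ← Real.rpow_add hY0]
    norm_num
  calc (Y * (48 * (1 + H ^ 2 / N))) ^ (7 / 10 : ℝ) * Y ^ (1 / 10 : ℝ) * (Y * (1 + 2 * C₁)) ^ (1 / 5 : ℝ) ≤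
      (Y ^ (7 / 10 : ℝ) * (48 * (1 + H ^ 2 / N) ^ (7 / 10 : ℝ))) * Y ^ (1 / 10 : ℝ) * (Y ^ (1 / 5 : ℝ) * (1 + 2 * C₁)) := by
        gcongr
    _ = (Y ^ (7 / 10 : ℝ) * Y ^ (1 / 10 : ℝ) * Y ^ (1 / 5 : ℝ)) * (48 * (1 + 2 * C₁)) * (1 + H ^ 2 / N) ^ (7 / 10 : ℝ) := by ring
    _ = C₂ * 48 * (1 + 2 * C₁) * (H ^ 2 * (1 + log H)) * (1 + H ^ 2 / N) ^ (7 / 10 : ℝ) := by rw [e3, hY]; ring

/-- the real computation at the end -/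
theorem final_real {ε η X H G : ℝ} {C₀ C₁ C₂ C₃ : ℝ} (hη : 40 * η = ε) (hη0 : 0 < η) (hX : 1 ≤ X) (hH : 1 ≤ H) (hHX : H ≤ X)
    (hG : G = H ^ 2 * (X * H) ^ (-(1 / 4) : ℝ)) (h0 : 1 ≤ C₀) (h1 : 1 ≤ C₁) (h2 : 1 ≤ C₂) (h3 : 1 ≤ C₃) :
    (C₀ * X ^ η * ((C₁ * X ^ 4 * H ^ η) ^ (1 / 10 : ℝ) * (C₂ * (H ^ 2 * (C₃ * X ^ η)) * (C₀ * X ^ η * (1 + G)) ^ (7 / 10 : ℝ)) +
      (X * H) ^ (1 / 4 : ℝ))) ^ 10 ≤
      (2 * C₀ ^ 2 * C₁ * C₂ * C₃) ^ 10 * 2 ^ 6 * X ^ (4 + ε) * (H ^ 20 + H ^ 34 * (X * H) ^ (-(7 / 4) : ℝ)) := by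
  have hX0 : 0 < X := by linarith
  have hH0 : 0 < H := by linarith
  have hXH : 0 < X * H := by positivity
  have hG0 : 0 ≤ G := by rw [hG]; positivity
  have hXη : 1 ≤ X ^ η := Real.one_le_rpow hX hη0.le
  have hA : (C₁ * X ^ 4 * H ^ η) ^ (1 / 10 : ℝ) ≤ C₁ * X ^ (4 / 10 : ℝ) * X ^ η := by
    rw [Real.mul_rpow (by positivity) (by positivity), Real.mul_rpow (by positivity) (by positivity)]
    have a1 : C₁ ^ (1 / 10 : ℝ) ≤ C₁ := by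
      calc C₁ ^ (1 / 10 : ℝ) ≤ C₁ ^ (1 : ℝ) := Real.rpow_le_rpow_of_exponent_le h1 (by norm_num)
        _ = C₁ := Real.rpow_one _
    have a2 : (X ^ 4) ^ (1 / 10 : ℝ) = X ^ (4 / 10 : ℝ) := by
      rw [← Real.rpow_natCast X 4, ← Real.rpow_mul hX0.le]; norm_num
    have a3 : (H ^ η) ^ (1 / 10 : ℝ) ≤ X ^ η := by
      calc (H ^ η) ^ (1 / 10 : ℝ) ≤ (H ^ η) ^ (1 : ℝ) :=
            Real.rpow_le_rpow_of_exponent_le (Real.one_le_rpow hH hη0.le) (by norm_num)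
        _ = H ^ η := Real.rpow_one _
        _ ≤ X ^ η := Real.rpow_le_rpow hH0.le hHX hη0.le
    rw [a2]
    gcongr
  have hB : (C₀ * X ^ η * (1 + G)) ^ (7 / 10 : ℝ) ≤ C₀ * X ^ η * (1 + G) ^ (7 / 10 : ℝ) := by
    rw [Real.mul_rpow (by positivity) (by positivity)]
    have : (C₀ * X ^ η) ^ (7 / 10 : ℝ) ≤ C₀ * X ^ η := by
      calc (C₀ * X ^ η) ^ (7 / 10 : ℝ) ≤ (C₀ * X ^ η) ^ (1 : ℝ) :=
            Real.rpow_le_rpow_of_exponent_le (by nlinarith) (by norm_num)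
        _ = _ := Real.rpow_one _
    gcongr
  have hD : (X * H) ^ (1 / 4 : ℝ) ≤ X ^ (4 / 10 : ℝ) * H ^ 2 := by
    rw [Real.mul_rpow hX0.le hH0.le]
    have b1 : X ^ (1 / 4 : ℝ) ≤ X ^ (4 / 10 : ℝ) := Real.rpow_le_rpow_of_exponent_le hX (by norm_num)
    have b2 : H ^ (1 / 4 : ℝ) ≤ H ^ 2 := by
      rw [← Real.rpow_natCast H 2]
      exact Real.rpow_le_rpow_of_exponent_le hH (by norm_num)
    gcongr
  have hone : 1 ≤ (1 + G) ^ (7 / 10 : ℝ) := Real.one_le_rpow (by linarith) (by norm_num)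
  have hE : C₀ * X ^ η * ((C₁ * X ^ 4 * H ^ η) ^ (1 / 10 : ℝ) * (C₂ * (H ^ 2 * (C₃ * X ^ η)) * (C₀ * X ^ η * (1 + G)) ^ (7 / 10 : ℝ)) +
      (X * H) ^ (1 / 4 : ℝ)) ≤ 2 * C₀ ^ 2 * C₁ * C₂ * C₃ * (X ^ η) ^ 4 * X ^ (4 / 10 : ℝ) * H ^ 2 * (1 + G) ^ (7 / 10 : ℝ) := by
    have c1 : C₀ * X ^ η * ((C₁ * X ^ 4 * H ^ η) ^ (1 / 10 : ℝ) * (C₂ * (H ^ 2 * (C₃ * X ^ η)) * (C₀ * X ^ η * (1 + G)) ^ (7 / 10 : ℝ)) +
      (X * H) ^ (1 / 4 : ℝ)) ≤ C₀ * X ^ η * ((C₁ * X ^ (4 / 10 : ℝ) * X ^ η) * (C₂ * (H ^ 2 * (C₃ * X ^ η)) * (C₀ * X ^ η * (1 + G) ^ (7 / 10 : ℝ))) +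
      X ^ (4 / 10 : ℝ) * H ^ 2) := by gcongr
    refine c1.trans ?_
    have c2 : X ^ (4 / 10 : ℝ) * H ^ 2 ≤ (C₁ * C₂ * C₃ * C₀ * (X ^ η) ^ 3) * (X ^ (4 / 10 : ℝ) * H ^ 2 * (1 + G) ^ (7 / 10 : ℝ)) := by
      have c3 : 1 ≤ C₁ * C₂ * C₃ * C₀ * (X ^ η) ^ 3 := by
        have : 1 ≤ (X ^ η) ^ 3 := one_le_pow₀ hXη
        have d1 : 1 ≤ C₁ * C₂ := by nlinarith
        have d2 : 1 ≤ C₁ * C₂ * C₃ := by nlinarith
        have d3 : 1 ≤ C₁ * C₂ * C₃ * C₀ := by nlinarith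
        nlinarith
      calc X ^ (4 / 10 : ℝ) * H ^ 2 = 1 * (X ^ (4 / 10 : ℝ) * H ^ 2 * 1) := by ring
        _ ≤ _ := by gcongr
    calc C₀ * X ^ η * ((C₁ * X ^ (4 / 10 : ℝ) * X ^ η) * (C₂ * (H ^ 2 * (C₃ * X ^ η)) * (C₀ * X ^ η * (1 + G) ^ (7 / 10 : ℝ))) +
          X ^ (4 / 10 : ℝ) * H ^ 2) ≤ C₀ * X ^ η * ((C₁ * X ^ (4 / 10 : ℝ) * X ^ η) * (C₂ * (H ^ 2 * (C₃ * X ^ η)) * (C₀ * X ^ η * (1 + G) ^ (7 / 10 : ℝ))) +
          (C₁ * C₂ * C₃ * C₀ * (X ^ η) ^ 3) * (X ^ (4 / 10 : ℝ) * H ^ 2 * (1 + G) ^ (7 / 10 : ℝ))) := by gcongr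
      _ = _ := by ring
  have hL0 : 0 ≤ C₀ * X ^ η * ((C₁ * X ^ 4 * H ^ η) ^ (1 / 10 : ℝ) * (C₂ * (H ^ 2 * (C₃ * X ^ η)) * (C₀ * X ^ η * (1 + G)) ^ (7 / 10 : ℝ)) +
      (X * H) ^ (1 / 4 : ℝ)) := by positivity
  refine (pow_le_pow_left₀ hL0 hE 10).trans ?_
  have e1 : ((1 + G) ^ (7 / 10 : ℝ)) ^ 10 = (1 + G) ^ 7 := by
    rw [← Real.rpow_natCast, ← Real.rpow_mul (by linarith), ← Real.rpow_natCast]; norm_num
  have e2 : (X ^ (4 / 10 : ℝ)) ^ 10 = X ^ (4 : ℝ) := by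
    rw [← Real.rpow_natCast, ← Real.rpow_mul hX0.le]; norm_num
  have e3 : ((X ^ η) ^ 4) ^ 10 = X ^ ε := by
    rw [← pow_mul, ← Real.rpow_natCast, ← Real.rpow_mul hX0.le, ← hη]; norm_num; congr 1; ring
  have e4 : (1 + G) ^ 7 ≤ 2 ^ 6 * (1 + G ^ 7) := by
    have := add_pow_le (zero_le_one' ℝ) hG0 7
    simpa using this
  have e5 : H ^ 20 * G ^ 7 = H ^ 34 * (X * H) ^ (-(7 / 4) : ℝ) := by
    have : ((X * H) ^ (-(1 / 4) : ℝ)) ^ 7 = (X * H) ^ (-(7 / 4) : ℝ) := by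
      rw [← Real.rpow_natCast, ← Real.rpow_mul hXH.le]; norm_num
    rw [hG, mul_pow, this]; ring
  calc (2 * C₀ ^ 2 * C₁ * C₂ * C₃ * (X ^ η) ^ 4 * X ^ (4 / 10 : ℝ) * H ^ 2 * (1 + G) ^ (7 / 10 : ℝ)) ^ 10
      = (2 * C₀ ^ 2 * C₁ * C₂ * C₃) ^ 10 * ((X ^ η) ^ 4) ^ 10 * (X ^ (4 / 10 : ℝ)) ^ 10 * H ^ 20 * ((1 + G) ^ (7 / 10 : ℝ)) ^ 10 := by ring
    _ = (2 * C₀ ^ 2 * C₁ * C₂ * C₃) ^ 10 * X ^ ε * X ^ (4 : ℝ) * H ^ 20 * (1 + G) ^ 7 := by rw [e1, e2, e3]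
    _ ≤ (2 * C₀ ^ 2 * C₁ * C₂ * C₃) ^ 10 * X ^ ε * X ^ (4 : ℝ) * H ^ 20 * (2 ^ 6 * (1 + G ^ 7)) := by gcongr
    _ = (2 * C₀ ^ 2 * C₁ * C₂ * C₃) ^ 10 * 2 ^ 6 * (X ^ (4 : ℝ) * X ^ ε) * (H ^ 20 + H ^ 20 * G ^ 7) := by ring
    _ = _ := by rw [← Real.rpow_add hX0, e5]

theorem sum_sectors (N : ℕ) (v : ℕ → ℝ) (hv : ∀ r, 0 ≤ v r) (J : ℕ → ENNReal) {k V : ℝ} (hk : 0 ≤ k)
    (h : ∀ r, J r ^ (1 / 10 : ℝ) ≤ ENNReal.ofReal (k * v r)) (hV : ∑ r ∈ Finset.range N, v r ≤ V) :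
    ∑ r ∈ Finset.range N, (J r + 1) ^ (1 / 10 : ℝ) ≤ ENNReal.ofReal (k * V + N) := by
  calc ∑ r ∈ Finset.range N, (J r + 1) ^ (1 / 10 : ℝ) ≤ ∑ r ∈ Finset.range N, (ENNReal.ofReal (k * v r) + 1) := by
        apply Finset.sum_le_sum
        intro r _
        refine (ENNReal.rpow_add_le_add_rpow _ _ (by norm_num) (by norm_num)).trans ?_
        rw [ENNReal.one_rpow]
        gcongr
        exact h r
    _ = ENNReal.ofReal (k * ∑ r ∈ Finset.range N, v r + N) := by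
        rw [Finset.sum_add_distrib, ← ENNReal.ofReal_sum_of_nonneg (fun r _ => mul_nonneg hk (hv r)), ← Finset.mul_sum,
          ENNReal.ofReal_add (mul_nonneg hk (Finset.sum_nonneg fun r _ => hv r)) (by positivity)]
        simp
    _ ≤ _ := by
        apply ENNReal.ofReal_le_ofReal
        gcongr

theorem ten_pow {a : ENNReal} {R Q : ℝ} (hR : 0 ≤ R) (h : a ^ (1 / 10 : ℝ) ≤ ENNReal.ofReal R) (hQ : R ^ 10 ≤ Q) :
    a ≤ ENNReal.ofReal Q := by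
  have h1 : a = (a ^ (1 / 10 : ℝ)) ^ (10 : ℝ) := by
    rw [← ENNReal.rpow_mul]; norm_num
  rw [h1]
  refine (ENNReal.rpow_le_rpow h (by norm_num)).trans ?_
  rw [ENNReal.ofReal_rpow_of_nonneg hR (by norm_num)]
  apply ENNReal.ofReal_le_ofReal
  refine le_trans (le_of_eq ?_) hQ
  rw [← Real.rpow_natCast]; norm_num

open Classical in
theorem mom_cone_of {ε B : ℝ} (hε : 0 < ε) (hB : 1 ≤ B)
    (hiter : ∀ η : ℝ, 0 < η → ∃ (M : ℕ) (C B' : ℝ), 2 ≤ M ∧ 1 ≤ C ∧ B ≤ B' ∧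
      ∀ (X H : ℝ) (S : Finset (ℤ × ℤ)), 1 ≤ X → 1 ≤ H → H ≤ X → Cone H 2 S →
      ∃ m : ℕ, X * H ≤ C * X ^ η * (M : ℝ) ^ (4 * m) ∧ (M : ℝ) ^ (4 * m) ≤ X * H ∧
        II B X S ^ (1 / 10 : ℝ) ≤ ENNReal.ofReal (C * X ^ η) *
          ∑ r ∈ Finset.range (M ^ m), (II B' X (arc 0 S (M ^ m) r) + 1) ^ (1 / 10 : ℝ))
    (hm6 : ∀ ε B : ℝ, 0 < ε → 1 ≤ B → ∃ C : ℝ, 1 ≤ C ∧ ∀ (X H : ℝ) (A : Finset (ℤ × ℤ)), 1 ≤ X → 1 ≤ H → Cone H 2 A →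
      ∫⁻ f in UB B X, ENNReal.ofReal (m6 A (fun k => ee (nm (vf f k)))) ≤ ENNReal.ofReal (C * X ^ 4 * H ^ ε * (A.card : ℝ) *
      (((A ×ˢ A).filter (fun z => |((dd z.1 z.2 : ℤ) : ℝ)| ≤ C * (1 + H ^ 2 / √(H * X)))).card : ℝ) ^ 2))
    (hm20 : ∀ (A : Finset (ℤ × ℤ)) (a : ℤ × ℤ → ℂ), (∀ k, ‖a k‖ ≤ 1) → m20 A a ≤ (A.card : ℝ) ^ 14 * m6 A a) :
    ∃ C : ℝ, 1 ≤ C ∧ ∀ (X H : ℝ) (S : Finset (ℤ × ℤ)), 1 ≤ X → 1 ≤ H → H ^ 3 ≤ X → Cone H 2 S →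
      II B X S ≤ ENNReal.ofReal (C * X ^ (4 + ε) * (H ^ 20 + H ^ 34 * (X * H) ^ (-(7 / 4) : ℝ))) := by
  set η : ℝ := ε / 40 with hηd
  have hη : 0 < η := by positivity
  have hηε : 40 * η = ε := by rw [hηd]; ring
  obtain ⟨M, C₀, B', hM, hC₀, hBB, hit⟩ := hiter η hη
  obtain ⟨C₁, hC₁, h6⟩ := hm6 η B' hη (hB.trans hBB)
  obtain ⟨C₂, hC₂, hsec⟩ := sector_sum hC₁
  set C₃ : ℝ := 1 + 1 / η with hC₃d
  have hC₃ : 1 ≤ C₃ := by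
    have : 0 < 1 / η := by positivity
    linarith
  refine ⟨(2 * C₀ ^ 2 * C₁ * C₂ * C₃) ^ 10 * 2 ^ 6, ?_, ?_⟩
  · have d0 : 1 ≤ C₀ ^ 2 := one_le_pow₀ hC₀
    have d1 : 1 ≤ 2 * C₀ ^ 2 := by linarith
    have d2 : 1 ≤ 2 * C₀ ^ 2 * C₁ := by nlinarith
    have d3 : 1 ≤ 2 * C₀ ^ 2 * C₁ * C₂ := by nlinarith
    have d4 : 1 ≤ 2 * C₀ ^ 2 * C₁ * C₂ * C₃ := by nlinarith
    have d5 : 1 ≤ (2 * C₀ ^ 2 * C₁ * C₂ * C₃) ^ 10 := one_le_pow₀ d4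
    nlinarith
  intro X H S hX hH hHX3 hS
  have hX0 : 0 < X := by linarith
  have hH0 : 0 < H := by linarith
  have hHX : H ≤ X := by
    refine le_trans ?_ hHX3
    calc H = H ^ 1 := (pow_one H).symm
      _ ≤ H ^ 3 := pow_le_pow_right₀ hH (by norm_num)
  obtain ⟨m, hm1, hm2, hm3⟩ := hit X H S hX hH hHX hS
  have hXη : 1 ≤ X ^ η := Real.one_le_rpow hX hη.le
  set N : ℕ := M ^ m with hN
  have hN1 : 1 ≤ N := Nat.one_le_pow _ _ (by omega)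
  have hN0 : (0 : ℝ) < N := by exact_mod_cast hN1
  have hN4 : (M : ℝ) ^ (4 * m) = (N : ℝ) ^ 4 := by rw [hN]; push_cast; rw [← pow_mul]; ring_nf
  rw [hN4] at hm1 hm2
  -- the number of sectors
  have hNle : (N : ℝ) ≤ (X * H) ^ (1 / 4 : ℝ) := by
    have : ((N : ℝ) ^ 4) ^ (1 / 4 : ℝ) = N := by
      rw [← Real.rpow_natCast, ← Real.rpow_mul hN0.le]; norm_num
    rw [← this]
    exact Real.rpow_le_rpow (by positivity) hm2 (by norm_num)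
  set G : ℝ := H ^ 2 * (X * H) ^ (-(1 / 4) : ℝ) with hG
  have hHN : 1 + H ^ 2 / N ≤ C₀ * X ^ η * (1 + G) := by
    have hCX : 1 ≤ C₀ * X ^ η := by nlinarith
    have g1 : (X * H) ^ (1 / 4 : ℝ) ≤ C₀ * X ^ η * N := by
      calc (X * H) ^ (1 / 4 : ℝ) ≤ (C₀ * X ^ η * (N : ℝ) ^ 4) ^ (1 / 4 : ℝ) := Real.rpow_le_rpow (by positivity) hm1 (by norm_num)
        _ = (C₀ * X ^ η) ^ (1 / 4 : ℝ) * N := by
            rw [Real.mul_rpow (by positivity) (by positivity)]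
            congr 1
            rw [← Real.rpow_natCast, ← Real.rpow_mul hN0.le]; norm_num
        _ ≤ C₀ * X ^ η * N := by
            have : (C₀ * X ^ η) ^ (1 / 4 : ℝ) ≤ C₀ * X ^ η := by
              calc (C₀ * X ^ η) ^ (1 / 4 : ℝ) ≤ (C₀ * X ^ η) ^ (1 : ℝ) := Real.rpow_le_rpow_of_exponent_le hCX (by norm_num)
                _ = _ := Real.rpow_one _
            gcongr
    have g2 : (X * H) ^ (-(1 / 4) : ℝ) = ((X * H) ^ (1 / 4 : ℝ))⁻¹ := Real.rpow_neg (by positivity) _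
    have g3 : H ^ 2 / N ≤ C₀ * X ^ η * G := by
      rw [hG, g2, div_le_iff₀ hN0]
      have g4 : 0 < (X * H) ^ (1 / 4 : ℝ) := by positivity
      calc H ^ 2 = H ^ 2 * ((X * H) ^ (1 / 4 : ℝ))⁻¹ * (X * H) ^ (1 / 4 : ℝ) := by
            field_simp
        _ ≤ H ^ 2 * ((X * H) ^ (1 / 4 : ℝ))⁻¹ * (C₀ * X ^ η * N) := by gcongr
        _ = C₀ * X ^ η * (H ^ 2 * ((X * H) ^ (1 / 4 : ℝ))⁻¹) * N := by ring
    nlinarith
  have hlogH : 1 + log H ≤ C₃ * X ^ η := by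
    have l1 := Real.log_le_rpow_div hH0.le hη
    have l2 : H ^ η ≤ X ^ η := Real.rpow_le_rpow hH0.le hHX hη.le
    have l3 : H ^ η / η ≤ X ^ η / η := by gcongr
    rw [hC₃d]
    have l4 : (1 + 1 / η) * X ^ η = X ^ η + X ^ η / η := by ring
    rw [l4]; linarith
  have hlog0 : 0 ≤ log H := Real.log_nonneg hH
  -- each sector
  set P : ℕ → ℝ := fun r => (((arc 0 S N r ×ˢ arc 0 S N r).filter (fun z => |((dd z.1 z.2 : ℤ) : ℝ)| ≤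
    C₁ * (1 + H ^ 2 / √(H * X)))).card : ℝ) with hP
  set K : ℝ := C₁ * X ^ 4 * H ^ η with hK
  have hK0 : 0 ≤ K := by positivity
  have hcone : ∀ r, Cone H 2 (arc 0 S N r) := by
    intro r k hk
    unfold arc at hk
    exact hS k (Finset.mem_filter.1 hk).1
  have hsecr : ∀ r, II B' X (arc 0 S N r) ^ (1 / 10 : ℝ) ≤ ENNReal.ofReal (K ^ (1 / 10 : ℝ) *
      ((((arc 0 S N r).card : ℝ) ^ 2) ^ (7 / 10 : ℝ) * ((arc 0 S N r).card : ℝ) ^ (1 / 10 : ℝ) * P r ^ (1 / 5 : ℝ))) := by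
    intro r
    have i1 : II B' X (arc 0 S N r) ≤ ENNReal.ofReal (((arc 0 S N r).card : ℝ) ^ 14) *
        ∫⁻ f in UB B' X, ENNReal.ofReal (m6 (arc 0 S N r) (fun k => ee (nm (vf f k)))) := by
      unfold II
      rw [← lintegral_const_mul' _ _ ENNReal.ofReal_ne_top]
      apply lintegral_mono
      intro f
      unfold ff
      simp only
      rw [← ENNReal.ofReal_mul (by positivity)]
      apply ENNReal.ofReal_le_ofReal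
      exact hm20 _ _ (fun k => (ee_norm _).le)
    have i2 := h6 X H (arc 0 S N r) hX hH (hcone r)
    have i3 : II B' X (arc 0 S N r) ≤ ENNReal.ofReal (((arc 0 S N r).card : ℝ) ^ 14 * (K * ((arc 0 S N r).card : ℝ) * P r ^ 2)) := by
      rw [ENNReal.ofReal_mul (by positivity)]
      refine i1.trans ?_
      gcongr
    rw [← one_sector hK0 (by positivity) (by rw [hP]; positivity), ← ENNReal.ofReal_rpow_of_nonneg (by rw [hP]; positivity) (by norm_num)]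
    exact ENNReal.rpow_le_rpow i3 (by norm_num)
  have hsum := hsec X H N S hX hH hHX3 hN1 hS P (fun r => by rw [hP]; positivity)
    (fun r => ⟨C₁ * (1 + H ^ 2 / √(H * X)), le_rfl, by positivity, le_of_eq (by rw [hP])⟩)
  have htot : ∑ r ∈ Finset.range N, (II B' X (arc 0 S N r) + 1) ^ (1 / 10 : ℝ) ≤
      ENNReal.ofReal (K ^ (1 / 10 : ℝ) * (C₂ * (H ^ 2 * (C₃ * X ^ η)) * (C₀ * X ^ η * (1 + G)) ^ (7 / 10 : ℝ)) +
      (X * H) ^ (1 / 4 : ℝ)) := by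
    have hs2 : ∑ r ∈ Finset.range N,
      ((((arc 0 S N r).card : ℝ) ^ 2) ^ (7 / 10 : ℝ) * ((arc 0 S N r).card : ℝ) ^ (1 / 10 : ℝ) * P r ^ (1 / 5 : ℝ)) ≤
            C₂ * (H ^ 2 * (C₃ * X ^ η)) * (C₀ * X ^ η * (1 + G)) ^ (7 / 10 : ℝ) := by
      refine hsum.trans ?_
      gcongr
    refine (sum_sectors N _ (fun r => by rw [hP]; positivity) _ (by positivity) hsecr hs2).trans ?_
    apply ENNReal.ofReal_le_ofReal
    linarith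
  -- end
  have hII : II B X S ^ (1 / 10 : ℝ) ≤ ENNReal.ofReal (C₀ * X ^ η * (K ^ (1 / 10 : ℝ) *
      (C₂ * (H ^ 2 * (C₃ * X ^ η)) * (C₀ * X ^ η * (1 + G)) ^ (7 / 10 : ℝ)) + (X * H) ^ (1 / 4 : ℝ))) := by
    rw [ENNReal.ofReal_mul (by positivity)]
    refine hm3.trans ?_
    gcongr
  have hfin := final_real (X := X) (H := H) (G := G) hηε hη hX hH hHX hG hC₀ hC₁ hC₂ hC₃
  rw [← hK] at hfin
  have hR0 : 0 ≤ C₀ * X ^ η * (K ^ (1 / 10 : ℝ) *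
      (C₂ * (H ^ 2 * (C₃ * X ^ η)) * (C₀ * X ^ η * (1 + G)) ^ (7 / 10 : ℝ)) + (X * H) ^ (1 / 4 : ℝ)) := by positivity
  generalize C₀ * X ^ η * (K ^ (1 / 10 : ℝ) *
      (C₂ * (H ^ 2 * (C₃ * X ^ η)) * (C₀ * X ^ η * (1 + G)) ^ (7 / 10 : ℝ)) + (X * H) ^ (1 / 4 : ℝ)) = R at hII hfin hR0
  exact ten_pow hR0 hII hfin

end Pool.Agent.Helper60.QL
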